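import Pool.Agent.Y472.L.Xpa
import Pool.Agent.Y472.L.Rep
import Pool.Agent.H756R3.J.Cont
import Pool.Agent.H105R3.JSanCurl
import Pool.Agent.H309R4.Jones.SanU
import Pool.Agent.H550R3.Jones.SanSkein699

/-!
# The asymptotic series of the Kashaev invariants of the Turk's head knots is in the trace field

The knots are the closures of the 3-braids `(s_1 s_2⁻¹)^n`, `n ≥ 4` not divisible by `3` (for `n = 4`
the knot `8_18`, for `n = 5` the knot `10_123`; for `n = 2` it is the figure eight knot).  They are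
alternating, with `2 n` crossings, and not arborescent.  The statement is explicit: all `n ≥ 4`, no
large parameters.

The invariants are defined from the R-matrix of `U_q(sl_2)`, with `v = q^{1/2}` and
`{k} = v^k - v^{-k}`.  The `N`-coloured Jones polynomial `cjones N n w v` of the closure of a braid
word `w` on `n + 1` strands is the entry at the highest weight vector of the partial quantum trace
(over all strands but the first one) of the operator of `w` on the tensor power of the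
`N`-dimensional irreducible representation.  The crossings carry the framing correction and the
unknot has value `1`.  The Kashaev invariant is its value at `v = exp (π i / N)`, that is
`q = exp (2 π i / N)`.

The complement of the closure of `(s_1 s_2⁻¹)^n`, `n ≥ 2`, is hyperbolic (Thurston), and its volume is
`4 n (Λ(β + δ) + Λ(β - δ))`, `δ = π / (2 n)`, `2 β = arccos (cos 2 δ - 1/2)`, `Λ` Lobachevsky's function
(A. D. Mednykh, A. Yu. Vesnin, Hyperbolic volumes of Fibonacci manifolds, Siberian Math. J. 36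
(1995)).  The word `(s_1 s_2⁻¹)^n` is conjugate to its mirror image `(s_1⁻¹ s_2)^n`: the link is
amphicheiral and its Chern-Simons invariant is `0`.

The trace field.  The group of the closure is given by its Wirtinger presentation (`LinkGroup`).
Let `z + z⁻¹ = 1 - 2 cos (π / n)`, `|z| = 1`.  The matrices `meridian z 0`, `meridian z 1`,
`meridian z 2` define the representation `ρ` of the result.  It is the holonomy representation of the
hyperbolic structure: by Mostow rigidity the symmetry of order `n` of the closure (the rotation about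
the axis of the braid) carries the holonomy representation to a conjugate of it, so one step
`s_1 s_2⁻¹` of the braid carries the three meridians to their conjugates by a matrix `B` of order `n`
in `PSL_2(ℂ)`, a rotation by `2 π / n`, `tr B = ± 2 cos (π / n)`.  Parabolic matrices are
`x ↦ x + ω(u, x) u`; for the three meridians this condition gives, up to conjugation, the matrices
`meridian z i` with `tr B = 1 - z - z⁻¹`, and for `z + z⁻¹ = 1 + 2 cos (π / n) ≥ 2` the matrices are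
real.  The trace field is `ℚ(z)`: for `n = 4` it is the field of `x⁴ - 2 x³ + x² - 2 x + 1`, for
`n = 5` it is `ℚ(ζ_5)`.
-/

set_option autoImplicit false

namespace Pool.Agent.Results.MP_b4463e_gt.TurkHeadTraceField

open Finset Filter Topology

/-! ### The coloured Jones polynomial -/

/-- `{n} = v^n - v^{-n}` -/
noncomputable def br (v : ℂ) (n : ℤ) : ℂ := v ^ n - v ^ (-n)

/-- `{n}! = {1} {2} ⋯ {n}` -/
noncomputable def brf (v : ℂ) (n : ℕ) : ℂ := ∏ j ∈ range n, br v ((j : ℤ) + 1)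

/-- The positive crossing: the R-matrix of `U_q(sl_2)` on `V_N ⊗ V_N`, `V_N` with basis
`e_0, …, e_{N-1}`, times the framing factor `v^{-(N^2-1)/2}`; `crossP N v p q` is the coefficient
of `e_{p.1} ⊗ e_{p.2}` in the image of `e_{q.1} ⊗ e_{q.2}`:
`e_i ⊗ e_j ↦ ∑_n v^{-(N-1)(1+i+j) + 2(i-n)(j+n) + n(n-1)/2}
({j+n}! / ({j}! {n}!)) ∏_{t<n} {N-i+t} e_{j+n} ⊗ e_{i-n}`. -/
noncomputable def crossP (N : ℕ) (v : ℂ) : Matrix (Fin N × Fin N) (Fin N × Fin N) ℂ :=
  fun p q => if (p.1 : ℕ) + p.2 = q.1 + q.2 ∧ (q.2 : ℕ) ≤ p.1 then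
    v ^ (-((N : ℤ) - 1) * (1 + (q.1 : ℕ) + (q.2 : ℕ)) + 2 * (p.1 : ℕ) * (p.2 : ℕ)) *
      v ^ (((p.1 : ℕ) - q.2) * ((p.1 : ℕ) - q.2 - 1) / 2) *
      (brf v p.1 / (brf v q.2 * brf v ((p.1 : ℕ) - q.2))) *
      ∏ t ∈ range ((p.1 : ℕ) - q.2), br v ((N : ℤ) - (q.1 : ℕ) + t)
    else 0

/-- The negative crossing, inverse of `crossP N v`:
`e_i ⊗ e_j ↦ ∑_n (-1)^n v^{(N-1)(1+i+j) - 2ij - n(n-1)/2}
({i+n}! / ({i}! {n}!)) ∏_{t<n} {N-j+t} e_{j-n} ⊗ e_{i+n}`. -/
noncomputable def crossN (N : ℕ) (v : ℂ) : Matrix (Fin N × Fin N) (Fin N × Fin N) ℂ :=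
  fun p q => if (p.1 : ℕ) + p.2 = q.1 + q.2 ∧ (q.1 : ℕ) ≤ p.2 then
    (-1) ^ ((p.2 : ℕ) - q.1) *
      v ^ (((N : ℤ) - 1) * (1 + (q.1 : ℕ) + (q.2 : ℕ)) - 2 * (q.1 : ℕ) * (q.2 : ℕ)) /
      v ^ (((p.2 : ℕ) - q.1) * ((p.2 : ℕ) - q.1 - 1) / 2) *
      (brf v p.2 / (brf v q.1 * brf v ((p.2 : ℕ) - q.1))) *
      ∏ t ∈ range ((p.2 : ℕ) - q.1), br v ((N : ℤ) - (q.2 : ℕ) + t)
    else 0

/-- The braid generator `s_k` on `n` strands (it acts on the strands number `k` and `k + 1`,
counted from `0`) by the crossing matrix `A`. -/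
def gen {ι : Type} [DecidableEq ι] (A : Matrix (ι × ι) (ι × ι) ℂ) (n k : ℕ) :
    Matrix (Fin n → ι) (Fin n → ι) ℂ :=
  fun s t => if h : k + 1 < n then
    (if ∀ j : Fin n, (j : ℕ) ≠ k → (j : ℕ) ≠ k + 1 → s j = t j then
      A (s ⟨k, by omega⟩, s ⟨k + 1, h⟩) (t ⟨k, by omega⟩, t ⟨k + 1, h⟩) else 0)
    else (if s = t then 1 else 0)

/-- The operator of a braid word on `n` strands: the letter `(k, true)` is `s_k`, the letter
`(k, false)` is its inverse; `P` and `Q` are the matrices of the two crossings. -/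
def rep {ι : Type} [Fintype ι] [DecidableEq ι] (P Q : Matrix (ι × ι) (ι × ι) ℂ) (n : ℕ)
    (w : List (ℕ × Bool)) : Matrix (Fin n → ι) (Fin n → ι) ℂ :=
  (w.map fun g => gen (if g.2 then P else Q) n g.1).prod

/-- The partial trace over all strands but the first one, with weights `k`; `n + 1` strands. -/
def tail {ι : Type} [Fintype ι] (k : ι → ℂ) (n : ℕ)
    (A : Matrix (Fin (n + 1) → ι) (Fin (n + 1) → ι) ℂ) : Matrix ι ι ℂ :=
  fun i j => ∑ s : Fin n → ι, (∏ x, k (s x)) * A (Fin.cons i s) (Fin.cons j s)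

/-- The `N`-coloured Jones polynomial (unknot `= 1`) of the closure of the braid word `w` on
`n + 1` strands, at `q = v^2`: the entry at the highest weight vector `e_0` of the partial quantum
trace, with the weights `v^{N-1-2x}` of `K`. -/
noncomputable def cjones (N n : ℕ) (w : List (ℕ × Bool)) (v : ℂ) : ℂ :=
  if h : 0 < N then
    tail (fun x : Fin N => v ^ ((N : ℤ) - 1 - 2 * (x : ℕ))) n
      (rep (crossP N v) (crossN N v) (n + 1) w) ⟨0, h⟩ ⟨0, h⟩ else 0

/-! ### The knots -/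

/-- The braid `(s_1 s_2⁻¹)^n` on three strands; the strands are numbered `0`, `1`, `2`, and `s_1`,
`s_2` are the generators number `0` and `1`. -/
def turk (n : ℕ) : List (ℕ × Bool) := (List.replicate n [(0, true), (1, false)]).flatten

/-- The permutation of a word on three strands. -/
def perm (w : List (ℕ × Bool)) : Equiv.Perm (Fin 3) :=
  (w.map fun g => if g.1 = 0 then Equiv.swap 0 1 else Equiv.swap 1 2).prod

/-- The closure of a braid on three strands is a knot: the permutation is a cycle of length three. -/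
def IsKnot (w : List (ℕ × Bool)) : Prop := (perm w).IsThreeCycle

/-- `v_N = exp (π i / N)`, so that `q = v_N^2 = exp (2 π i / N)`. -/
noncomputable def root (N : ℕ) : ℂ := Complex.exp (Real.pi * Complex.I / N)

/-- The Kashaev invariant of the closure of a braid on three strands. -/
noncomputable def kashaev (w : List (ℕ × Bool)) (N : ℕ) : ℂ := cjones N 2 w (root N)

/-! ### The hyperbolic volume -/

/-- Lobachevsky's function `Λ(x) = -∫_0^x log |2 sin t| dt`. -/
noncomputable def Lob (x : ℝ) : ℝ := -∫ t in (0 : ℝ)..x, Real.log |2 * Real.sin t|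

/-- `δ = π / (2 n)` -/
noncomputable def delta (n : ℕ) : ℝ := Real.pi / (2 * n)

/-- `β = arccos (cos 2 δ - 1/2) / 2` -/
noncomputable def beta (n : ℕ) : ℝ := Real.arccos (Real.cos (2 * delta n) - 1 / 2) / 2

/-- The hyperbolic volume of the complement of the closure of `(s_1 s_2⁻¹)^n` (Mednykh, Vesnin). -/
noncomputable def vol (n : ℕ) : ℝ := 4 * n * (Lob (beta n + delta n) + Lob (beta n - delta n))

/-- `a N` is asymptotic to `N^{3/2} e^{v N} Φ(2 π i / N)` to all orders in `1 / N`, where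
`Φ(h) = ∑ φ_k h^k`. -/
def Expansion (a : ℕ → ℂ) (v : ℂ) (φ : ℕ → ℂ) : Prop :=
  ∀ M : ℕ, ∃ C : ℝ, ∀ᶠ N : ℕ in atTop, ∃ E : ℂ, ‖E‖ ≤ C / (N : ℝ) ^ M ∧
    a N = (((N : ℝ) ^ (3 / 2 : ℝ) : ℝ) : ℂ) * Complex.exp (v * N) *
      (∑ k ∈ range M, φ k * (2 * Real.pi * Complex.I / N) ^ k + E)

/-! ### The group and the trace field -/

/-- The Wirtinger relation at a crossing: a letter of a braid word on three strands acts on the
triples of the meridians. -/
def letter {G : Type} [Group G] (g : ℕ × Bool) (x : Fin 3 → G) : Fin 3 → G :=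
  if g.1 = 0 then (if g.2 then ![x 0 * x 1 * (x 0)⁻¹, x 0, x 2]
    else ![x 1, (x 1)⁻¹ * x 0 * x 1, x 2])
  else (if g.2 then ![x 0, x 1 * x 2 * (x 1)⁻¹, x 1] else ![x 0, x 2, (x 2)⁻¹ * x 1 * x 2])

/-- The action of a braid word on the triples of the meridians. -/
def action {G : Type} [Group G] (w : List (ℕ × Bool)) (x : Fin 3 → G) : Fin 3 → G :=
  w.foldl (fun y g => letter g y) x

/-- The relations of the group of the closure of a braid on three strands: the meridians at the end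
of the braid are those at the beginning. -/
def rels (w : List (ℕ × Bool)) : Set (FreeGroup (Fin 3)) :=
  {r | ∃ i, r = action w (FreeGroup.of : Fin 3 → FreeGroup (Fin 3)) i * (FreeGroup.of i)⁻¹}

/-- The group of the closure of a braid on three strands (the fundamental group of the complement),
with the meridians `PresentedGroup.of i` as generators. -/
abbrev LinkGroup (w : List (ℕ × Bool)) : Type := PresentedGroup (rels w)

/-- The trace field of a representation: the field generated by the traces. -/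
noncomputable def traceField {G : Type} [Group G]
    (ρ : G →* Matrix.SpecialLinearGroup (Fin 2) ℂ) : IntermediateField ℚ ℂ :=
  IntermediateField.adjoin ℚ (Set.range fun g => Matrix.trace (ρ g : Matrix (Fin 2) (Fin 2) ℂ))

/-- `z_n`, with `z_n + z_n⁻¹ = 1 - 2 cos (π / n)` -/
noncomputable def z (n : ℕ) : ℂ :=
  Complex.exp (Real.arccos (1 / 2 - Real.cos (Real.pi / n)) * Complex.I)

/-- The matrices of the meridians. -/
noncomputable def meridian (z : ℂ) : Fin 3 → Matrix (Fin 2) (Fin 2) ℂ :=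
  ![!![1, 1 - z⁻¹; 0, 1], !![1, 0; z⁻¹ - 1, 1],
    !![1 - z * (z - 1), z * (z - 1); -(z * (z - 1)), 1 + z * (z - 1)]]

/-- There is no invariant line. -/
def Irreducible {G : Type} [Group G] (ρ : G →* Matrix.SpecialLinearGroup (Fin 2) ℂ) : Prop :=
  ∀ v : Fin 2 → ℂ, v ≠ 0 → ∃ g, ∀ c : ℂ, (ρ g : Matrix (Fin 2) (Fin 2) ℂ).mulVec v ≠ c • v

/-! ### Checks of the definitions (not part of the result) -/

/-- For `N = 2` the crossings satisfy the skein relation of the Jones polynomial. -/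
theorem skein (v : ℂ) (hv : v ≠ 0) (h1 : br v 1 ≠ 0) :
    v ^ 2 • crossP 2 v - (v ^ 2)⁻¹ • crossN 2 v =
      (v - v⁻¹) • (1 : Matrix (Fin 2 × Fin 2) (Fin 2 × Fin 2) ℂ) :=
  Pool.Agent.H550R3.Jones.taskSanSkein v hv h1

/-- The two crossings are inverse to each other. -/
theorem cross_inverse (N : ℕ) (v : ℂ) (hv : v ≠ 0)
    (h : ∀ k : ℕ, 0 < k → k < N → br v k ≠ 0) :
    crossP N v * crossN N v = 1 ∧ crossN N v * crossP N v = 1 :=
  Pool.Agent.H309R4.Jones.SanI.taskSanInv Pool.Agent.H345J.taskMod Pool.Agent.H345J.taskInv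
    Pool.Agent.H559R3.J.taskCross N v ⟨hv, h⟩

/-- The Yang-Baxter equation, for every colour. -/
theorem yang_baxter (N : ℕ) (v : ℂ) (hv : v ≠ 0) (h : ∀ k : ℕ, 0 < k → k < N → br v k ≠ 0) :
    gen (crossP N v) 3 0 * gen (crossP N v) 3 1 * gen (crossP N v) 3 0 =
      gen (crossP N v) 3 1 * gen (crossP N v) 3 0 * gen (crossP N v) 3 1 :=
  Pool.Agent.H927R2.J.SanYB.taskSanYB Pool.Agent.H345J.taskMod Pool.Agent.H345J.taskInt
    Pool.Agent.H345J.taskInv Pool.Agent.H667J.taskHex1 Pool.Agent.H22R3.J.taskNat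
    Pool.Agent.H559R3.J.taskCross N v ⟨hv, h⟩

/-- Curls may be removed: the framing is normalised. -/
theorem curl (N : ℕ) (v : ℂ) (hv : v ≠ 0) (h : ∀ k : ℕ, 0 < k → k < N → br v k ≠ 0) :
    (fun i j => ∑ x : Fin N, v ^ ((N : ℤ) - 1 - 2 * (x : ℕ)) * crossP N v (i, x) (j, x)) =
      (1 : Matrix (Fin N) (Fin N) ℂ) ∧
    (fun i j => ∑ x : Fin N, v ^ ((N : ℤ) - 1 - 2 * (x : ℕ)) * crossN N v (i, x) (j, x)) =
      (1 : Matrix (Fin N) (Fin N) ℂ) :=
  Pool.Agent.H105R3.JSan.taskSanCurl N v ⟨hv, h⟩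

/-- The unknot has the value `1`. -/
theorem unknot (N : ℕ) (v : ℂ) (hN : 0 < N) (hv : v ≠ 0)
    (h : ∀ k : ℕ, 0 < k → k < N → br v k ≠ 0) :
    cjones N 0 [] v = 1 ∧ cjones N 1 [(0, true)] v = 1 ∧ cjones N 1 [(0, false)] v = 1 :=
  Pool.Agent.H309R4.Jones.SanU.taskSanUnknot N v hN ⟨hv, h⟩

/-- `z_n + z_n⁻¹ = 1 - 2 cos (π / n)`, `|z_n| = 1` and `z_n` is not real -/
theorem z_spec (n : ℕ) (hn : 4 ≤ n) :
    z n + (z n)⁻¹ = 1 - 2 * (Real.cos (Real.pi / n) : ℂ) ∧ ‖z n‖ = 1 ∧ (z n).im ≠ 0 := by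
  have hb := Pool.Agent.Y51.TK.t_PAR n hn
  have hg1 : 1 / 2 < Real.cos (Real.pi / n) := hb.1
  have hg2 : Real.cos (Real.pi / n) < 1 := hb.2.1
  have hz : z n = Complex.exp ((Real.arccos (1 / 2 - Real.cos (Real.pi / n)) : ℝ) * Complex.I) :=
    rfl
  have hc : Real.cos (Real.arccos (1 / 2 - Real.cos (Real.pi / n))) =
      1 / 2 - Real.cos (Real.pi / n) :=
    Real.cos_arccos (by linarith) (by linarith)
  refine ⟨?_, ?_, ?_⟩
  · rw [hz, ← Complex.exp_neg]
    have h1 : Complex.exp ((Real.arccos (1 / 2 - Real.cos (Real.pi / n)) : ℝ) * Complex.I) +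
        Complex.exp (-((Real.arccos (1 / 2 - Real.cos (Real.pi / n)) : ℝ) * Complex.I)) =
        2 * Complex.cos (Real.arccos (1 / 2 - Real.cos (Real.pi / n)) : ℝ) := by
      rw [Complex.cos]
      rw [neg_mul]
      ring
    rw [h1, ← Complex.ofReal_cos, hc]
    push_cast
    ring
  · rw [hz]
    exact Complex.norm_exp_ofReal_mul_I _
  · rw [hz, Complex.exp_ofReal_mul_I_im, Real.sin_arccos]
    have h2 : 0 < 1 - (1 / 2 - Real.cos (Real.pi / n)) ^ 2 := by nlinarith
    exact (Real.sqrt_pos.2 h2).ne'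

/-! ### Bridges -/

lemma turk_eq (n : ℕ) : turk n = Pool.Agent.Y472.bw (List.replicate n (1, -1)) := by
  rw [Pool.Agent.Y472.bw, List.map_replicate]
  rfl

lemma vol_eq (n : ℕ) (hn : 4 ≤ n) : vol n = 2 * Real.pi * Pool.Agent.Y472.K.Dn n := by
  have hn0 : (n : ℝ) ≠ 0 := by
    have : n ≠ 0 := by omega
    exact_mod_cast this
  have h : 2 * (Real.pi / (2 * (n : ℝ))) = Real.pi / n := by
    field_simp
  rw [Pool.Agent.Y472.K.vol n hn, vol, Lob, Lob, beta, delta, h]

lemma cont (n N : ℕ) (hN : 1 ≤ N) : ContinuousAt (cjones N 2 (turk n)) (root N) := by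
  have hv : root N = EvenVol.v0 N := rfl
  rw [hv]
  refine Pool.Agent.H756R3.J.taskCont N (EvenVol.v0 N) (Complex.exp_ne_zero _) ?_ _ _
  intro k hk0 hkN
  exact Pool.Agent.W715.VC.br_ne (by omega) (by omega)

lemma kashaev_eq (n : ℕ) : kashaev (turk n) = Pool.Agent.Y472.K.Out.JJ n := by
  funext N
  rw [Pool.Agent.Y472.K.Out.JJ, ← turk_eq]
  rfl

lemma ex (n : ℕ) (hn : 4 ≤ n) : ∃ a : ℕ → ℝ,
    Pool.Agent.Y472.K.Out.Ex (kashaev (turk n)) (vol n) a := by
  rw [kashaev_eq, vol_eq n hn]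
  exact Pool.Agent.Y472.K.Out.ex n hn

lemma im_zero (n N : ℕ) (hn : 1 ≤ n) (hN : 2 ≤ N) : (kashaev (turk n) N).im = 0 := by
  rw [kashaev_eq]
  exact Pool.Agent.Y472.K.turk_real n N hn hN

lemma perm_turk (n : ℕ) : perm (turk n) = (Equiv.swap 0 1 * Equiv.swap 1 2) ^ n := by
  have h : ∀ n : ℕ, turk (n + 1) = (0, true) :: (1, false) :: turk n := fun n => by
    rw [turk, List.replicate_succ, List.flatten_cons]
    rfl
  induction n with
  | zero => rfl
  | succ k ih =>
    rw [h, perm, List.map_cons, List.map_cons, List.prod_cons, List.prod_cons, pow_succ', ← ih,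
      ← mul_assoc]
    rfl

lemma three (n : ℕ) : (Equiv.swap 0 1 * Equiv.swap 1 2 : Equiv.Perm (Fin 3)) ^ n =
    (Equiv.swap 0 1 * Equiv.swap 1 2) ^ (n % 3) := by
  have h : (Equiv.swap 0 1 * Equiv.swap 1 2 : Equiv.Perm (Fin 3)) ^ 3 = 1 := by decide
  conv_lhs => rw [← Nat.div_add_mod n 3, pow_add, pow_mul, h, one_pow, one_mul]

lemma knot (n : ℕ) (h3 : ¬ 3 ∣ n) : IsKnot (turk n) := by
  unfold IsKnot
  rw [perm_turk, three]
  have h : n % 3 = 1 ∨ n % 3 = 2 := by omega
  rcases h with h | h <;> rw [h] <;> unfold Equiv.Perm.IsThreeCycle <;> decide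

lemma z_eq (n : ℕ) : z n = Pool.Agent.Y472.L.zs n := by
  have h : z n = Complex.exp ((Real.arccos (1 / 2 - Real.cos (Real.pi / n)) : ℝ) * Complex.I) :=
    rfl
  have h2 : Pool.Agent.Y472.L.zs n = Complex.exp (2 * Real.pi * Complex.I *
      ((Real.arccos (1 / 2 - Real.cos (Real.pi / n)) / (2 * Real.pi) : ℝ) : ℂ)) := rfl
  rw [h, h2]
  congr 1
  have hpi : (Real.pi : ℂ) ≠ 0 := by exact_mod_cast Real.pi_ne_zero
  push_cast
  field_simp

lemma fixed (n : ℕ) (hn : 4 ≤ n) : Pool.Agent.Y472.L.Rep.hurwitz (turk n)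
    (Pool.Agent.Y472.L.Rep.XX (z n)) = Pool.Agent.Y472.L.Rep.XX (z n) :=
  Pool.Agent.Y472.L.Rep.fixed n (by omega) (Complex.exp_ne_zero _) (z_spec n hn).1

lemma z_ne (n : ℕ) (hn : 4 ≤ n) : z n ≠ 1 := by
  intro h
  have h2 := (z_spec n hn).2.2
  rw [h] at h2
  exact h2 Complex.one_im

lemma irred {z : ℂ} (hz1 : z ≠ 1) {G : Type} [Group G]
    (ρ : G →* Matrix.SpecialLinearGroup (Fin 2) ℂ) {a b : G}
    (ha : (ρ a : Matrix (Fin 2) (Fin 2) ℂ) = !![1, 1 - z⁻¹; 0, 1])
    (hb : (ρ b : Matrix (Fin 2) (Fin 2) ℂ) = !![1, 0; z⁻¹ - 1, 1]) : Irreducible ρ := by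
  have hp : 1 - z⁻¹ ≠ 0 := by
    intro h2
    apply hz1
    have : z⁻¹ = 1 := by linear_combination -h2
    exact inv_eq_one.1 this
  intro v hv
  by_contra hcon
  push Not at hcon
  obtain ⟨c, hc⟩ := hcon a
  obtain ⟨d, hd⟩ := hcon b
  rw [ha] at hc
  rw [hb] at hd
  have c0 := congrFun hc 0
  have c1 := congrFun hc 1
  have d0 := congrFun hd 0
  have d1 := congrFun hd 1
  simp only [Matrix.mulVec, dotProduct, Fin.sum_univ_two, Matrix.of_apply, Matrix.cons_val_zero,
    Matrix.cons_val_one, Matrix.cons_val', Pi.smul_apply, smul_eq_mul, one_mul, zero_mul, zero_add,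
    add_zero, Fin.isValue, Matrix.cons_val_fin_one] at c0 c1 d0 d1
  have hv1 : v 1 = 0 := by
    by_contra h
    have h4 : c = 1 := mul_right_cancel₀ h (by rw [one_mul]; exact c1.symm)
    rw [h4] at c0
    have h5 : (1 - z⁻¹) * v 1 = 0 := by linear_combination c0
    exact h ((mul_eq_zero.1 h5).resolve_left hp)
  have hv0 : v 0 = 0 := by
    by_contra h
    have h4 : d = 1 := mul_right_cancel₀ h (by rw [one_mul]; exact d0.symm)
    rw [h4] at d1
    have h5 : (1 - z⁻¹) * v 0 = 0 := by linear_combination -d1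
    exact h ((mul_eq_zero.1 h5).resolve_left hp)
  apply hv
  funext i
  fin_cases i
  · exact hv0
  · exact hv1

/-- **The asymptotic series of the Kashaev invariants of the Turk's head knots is in the trace
field.**
Let `n ≥ 4` be not divisible by `3`, and let `K` be the closure of the 3-braid `(s_1 s_2⁻¹)^n`.
(1) `K` is a knot.
(2) For every `N ≥ 1` the coloured Jones polynomial is continuous at `v_N`, so that `kashaev` is its
value at `q = e^(2 π i / N)` in the usual sense.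
(3) There is an irreducible parabolic representation `ρ` of the group of `K` in `SL_2(ℂ)` with the
explicit matrices `meridian (z_n) i` (the holonomy representation of the hyperbolic structure), its
trace field is `F = ℚ(z_n)`, and there is a power series `Φ(h) = ∑ φ_k h^k` such that `⟨K⟩_N` is
asymptotic to `N^(3/2) e^(v N) Φ(2 π i / N)` to all orders in `1 / N`, where `v = vol n / 2 π`; the
numbers `i^k φ_k` are real, and `φ_0 > 0`; and there are a nonzero `δ` in `F` and a square root `s` of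
`δ` such that all `φ_k` are in `ζ_8 s⁻¹ F`. -/
theorem result (n : ℕ) (hn : 4 ≤ n) (h3 : ¬ 3 ∣ n) :
    IsKnot (turk n) ∧
    (∀ N : ℕ, 1 ≤ N → ContinuousAt (cjones N 2 (turk n)) (root N)) ∧
    ∃ ρ : LinkGroup (turk n) →* Matrix.SpecialLinearGroup (Fin 2) ℂ,
      (∀ i, (ρ (PresentedGroup.of i) : Matrix (Fin 2) (Fin 2) ℂ) = meridian (z n) i) ∧
      (∀ i, Matrix.trace (ρ (PresentedGroup.of i) : Matrix (Fin 2) (Fin 2) ℂ) = 2 ∧
        ρ (PresentedGroup.of i) ≠ 1) ∧
      Irreducible ρ ∧ traceField ρ = IntermediateField.adjoin ℚ {z n} ∧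
      ∃ φ : ℕ → ℂ, Expansion (kashaev (turk n)) ((vol n / (2 * Real.pi) : ℝ) : ℂ) φ ∧
        (∀ k, (Complex.I ^ k * φ k).im = 0) ∧ 0 < (φ 0).re ∧
        ∃ δ ∈ traceField ρ, δ ≠ 0 ∧ ∃ s : ℂ, s ^ 2 = δ ∧
          ∀ k, ∃ f ∈ traceField ρ, φ k = Complex.exp (2 * Real.pi * Complex.I / 8) * s⁻¹ * f := by
  obtain ⟨a, h, harith⟩ := Pool.Agent.Y472.L.arith2 n hn
  rw [← kashaev_eq, ← vol_eq n hn] at h
  have hpi : (Real.pi : ℂ) ≠ 0 := by exact_mod_cast Real.pi_ne_zero
  have hcoe : ∀ i, (Pool.Agent.Y472.L.Rep.XX (z n) i : Matrix (Fin 2) (Fin 2) ℂ) =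
      meridian (z n) i := by
    intro i
    fin_cases i <;> rfl
  obtain ⟨ρ, hof, htf⟩ : ∃ ρ : LinkGroup (turk n) →* Matrix.SpecialLinearGroup (Fin 2) ℂ,
      (∀ i, ρ (PresentedGroup.of i) = Pool.Agent.Y472.L.Rep.XX (z n) i) ∧
      traceField ρ = IntermediateField.adjoin ℚ {z n} :=
    ⟨Pool.Agent.Y472.L.Rep.rep (fixed n hn), Pool.Agent.Y472.L.Rep.rep_of (fixed n hn),
      Pool.Agent.Y472.L.Rep.trace_field (Complex.exp_ne_zero _) (z_ne n hn) (fixed n hn)⟩
  obtain ⟨δ, hδ, hδ0, s, hs, h8, hk⟩ := harith (IntermediateField.adjoin ℚ {z n}).toSubfield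
    (by
      rw [← z_eq]
      exact IntermediateField.mem_adjoin_simple_self ℚ (z n))
  have hs0 : s ≠ 0 := by
    rintro rfl
    apply hδ0
    rw [← hs]
    ring
  refine ⟨knot n h3, fun N hN => cont n N hN, ρ, fun i => ?_, fun i => ?_, ?_, htf,
    fun k => (a k : ℂ) / (2 * Real.pi * Complex.I) ^ k, fun M => ?_, fun k => ?_, ?_, ?_⟩
  · rw [← hcoe]
    exact congrArg _ (hof i)
  · have h5 := Pool.Agent.Y472.L.Rep.parab (Complex.exp_ne_zero _ : z n ≠ 0) (z_ne n hn) i
    refine ⟨?_, ?_⟩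
    · have h6 : (ρ (PresentedGroup.of i) : Matrix (Fin 2) (Fin 2) ℂ) =
          (Pool.Agent.Y472.L.Rep.XX (z n) i : Matrix (Fin 2) (Fin 2) ℂ) := congrArg _ (hof i)
      exact (congrArg Matrix.trace h6).trans h5.1
    · intro h6
      exact h5.2 ((hof i).symm.trans h6)
  · refine irred (z_ne n hn) _ (a := PresentedGroup.of 0) (b := PresentedGroup.of 1) ?_ ?_
    · exact (congrArg _ (hof 0)).trans (hcoe 0)
    · exact (congrArg _ (hof 1)).trans (hcoe 1)
  · obtain ⟨C, hC⟩ := h.exp M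
    refine ⟨C, ?_⟩
    filter_upwards [hC, eventually_ge_atTop 1] with N hN h1
    have hN0 : (0 : ℝ) < N := by exact_mod_cast h1
    have hNc : (N : ℂ) ≠ 0 := by exact_mod_cast hN0.ne'
    refine ⟨_, hN, ?_⟩
    have e1 : ∑ k ∈ range M, (a k : ℂ) / (2 * Real.pi * Complex.I) ^ k *
        (2 * Real.pi * Complex.I / N) ^ k = ∑ k ∈ range M, (a k : ℂ) / (N : ℂ) ^ k := by
      refine sum_congr rfl fun k _ => ?_
      have h2 : (2 * (Real.pi : ℂ) * Complex.I) ^ k ≠ 0 := pow_ne_zero _ Complex.two_pi_I_ne_zero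
      rw [div_pow]
      field_simp
    rw [e1, add_sub_cancel]
    have h4 : ((Pool.Agent.Y472.K.Lim.w (vol n) N : ℝ) : ℂ) ≠ 0 := by
      exact_mod_cast (Pool.Agent.Y472.K.Lim.w_pos (vol n) h1).ne'
    have e2 : (((N : ℝ) ^ (3 / 2 : ℝ) : ℝ) : ℂ) *
        Complex.exp (((vol n / (2 * Real.pi) : ℝ) : ℂ) * N) =
        ((Pool.Agent.Y472.K.Lim.w (vol n) N : ℝ) : ℂ) := by
      unfold Pool.Agent.Y472.K.Lim.w
      rw [Complex.ofReal_mul, Complex.ofReal_exp]
      congr 2
      push_cast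
      ring
    rw [e2, mul_div_cancel₀ _ h4]
  · have e1 : Complex.I ^ k * ((a k : ℂ) / (2 * Real.pi * Complex.I) ^ k) =
        ((a k / (2 * Real.pi) ^ k : ℝ) : ℂ) := by
      have h2 : Complex.I ^ k ≠ 0 := pow_ne_zero _ Complex.I_ne_zero
      rw [mul_pow]
      push_cast
      field_simp
    rw [e1, Complex.ofReal_im]
  · simpa using h.pos
  · refine ⟨δ, ?_, hδ0, s, hs, fun k => ?_⟩
    · rw [htf]
      exact hδ
    · obtain ⟨e, he, hek⟩ := hk k
      refine ⟨e, ?_, ?_⟩
      · rw [htf]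
        exact he
      · show (a k : ℂ) / (2 * Real.pi * Complex.I) ^ k = _
        rw [hek, ← h8]
        field_simp

end Pool.Agent.Results.MP_b4463e_gt.TurkHeadTraceField
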